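import Mathlib

/-!
# MP_fe892a_gt: Jones's set function `T` on products of indecomposable continua
-/

namespace Pool.Agent.Results.MP_fe892a_gt.NotIdempotent

open Set Topology

universe u v

/-- `W` is a subcontinuum: a nonempty compact connected subset (of a Hausdorff space). -/
def IsSubcontinuum {S : Type u} [TopologicalSpace S] (W : Set S) : Prop :=
  IsCompact W ∧ IsConnected W

/-- Jones's set function: `p ∉ T A` iff `p` has a continuum neighbourhood disjoint from `A`. -/
def T {S : Type u} [TopologicalSpace S] (A : Set S) : Set S :=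
  Set.univ \ {p | ∃ W : Set S, IsSubcontinuum W ∧ p ∈ interior W ∧ W ∩ A = ∅}

/-- `X` is an indecomposable continuum: a nonempty compact connected Hausdorff space that is not
the union of two proper subcontinua. -/
structure IsIndecomposableContinuum (X : Type u) [TopologicalSpace X] : Prop where
  compact : CompactSpace X
  t2 : T2Space X
  connected : ConnectedSpace X
  indec : ∀ K L : Set X, IsSubcontinuum K → K ≠ Set.univ → IsSubcontinuum L → L ≠ Set.univ →
    K ∪ L ≠ Set.univ

/-! ### Proper subcontinua have empty interior -/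

lemma connected_union {X : Type u} [TopologicalSpace X] [ConnectedSpace X] (K P Q : Set X)
    (hK : IsConnected K) (hP : IsOpen P) (hQ : IsOpen Q)
    (hPQ : Disjoint P Q) (hKQ : Disjoint K Q)
    (hcov : K ∪ P ∪ Q = univ) : IsConnected (K ∪ P) := by
  refine ⟨hK.nonempty.mono subset_union_left, ?_⟩
  have hs : K ∪ P = Qᶜ := by
    ext x
    constructor
    · rintro (h | h) hq
      · exact disjoint_left.mp hKQ h hq
      · exact disjoint_left.mp hPQ h hq
    · intro h
      have : x ∈ K ∪ P ∪ Q := by rw [hcov]; trivial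
      exact this.resolve_right h
  have hcl : IsClosed (K ∪ P) := by rw [hs]; exact hQ.isClosed_compl
  rw [isPreconnected_closed_iff]
  -- symmetric core
  have core : ∀ t t' : Set X, IsClosed t → IsClosed t' → K ∪ P ⊆ t ∪ t' →
      (K ∪ P) ∩ (t ∩ t') = ∅ → K ⊆ t → ((K ∪ P) ∩ t').Nonempty → False := by
    intro t t' ht ht' hsub hemp hKt hne
    have hN : (K ∪ P) ∩ t' = P ∩ tᶜ := by
      ext x
      constructor
      · rintro ⟨hx, hx'⟩
        have hxt : x ∉ t := fun hxt => by
          have : x ∈ (K ∪ P) ∩ (t ∩ t') := ⟨hx, hxt, hx'⟩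
          rw [hemp] at this
          exact this
        refine ⟨?_, hxt⟩
        rcases hx with h | h
        · exact absurd (hKt h) hxt
        · exact h
      · rintro ⟨hx, hxt⟩
        exact ⟨Or.inr hx, (hsub (Or.inr hx)).resolve_left hxt⟩
    have hclopen : IsClopen ((K ∪ P) ∩ t') := by
      refine ⟨hcl.inter ht', ?_⟩
      rw [hN]
      exact hP.inter ht.isOpen_compl
    have huniv := hclopen.eq_univ hne
    obtain ⟨k, hk⟩ := hK.nonempty
    have : k ∈ (K ∪ P) ∩ t' := by rw [huniv]; trivial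
    rw [hN] at this
    exact this.2 (hKt hk)
  intro t t' ht ht' hsub hne hne'
  by_contra hcon
  rw [not_nonempty_iff_eq_empty] at hcon
  have hKpre := isPreconnected_closed_iff.mp hK.isPreconnected t t' ht ht'
    (subset_union_left.trans hsub)
  by_cases h1 : (K ∩ t).Nonempty
  · by_cases h2 : (K ∩ t').Nonempty
    · obtain ⟨x, hx⟩ := hKpre h1 h2
      have : x ∈ (K ∪ P) ∩ (t ∩ t') := ⟨Or.inl hx.1, hx.2⟩
      rw [hcon] at this
      exact this
    · have hKt : K ⊆ t := fun x hx =>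
        (hsub (Or.inl hx)).resolve_right (fun h => h2 ⟨x, hx, h⟩)
      exact core t t' ht ht' hsub hcon hKt hne'
  · have hKt : K ⊆ t' := fun x hx =>
      (hsub (Or.inl hx)).resolve_left (fun h => h1 ⟨x, hx, h⟩)
    exact core t' t ht' ht (by rwa [union_comm t' t]) (by rwa [inter_comm t' t]) hKt hne

lemma interior_empty {X : Type u} [TopologicalSpace X] (hX : IsIndecomposableContinuum X)
    (K : Set X) (hK : IsSubcontinuum K) (hne : K ≠ univ) : interior K = ∅ := by
  have := hX.compact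
  have := hX.t2
  have := hX.connected
  by_contra hint
  rw [← ne_eq, ← nonempty_iff_ne_empty] at hint
  have hKcl : IsClosed K := hK.1.isClosed
  have hVne : (Kᶜ).Nonempty := nonempty_compl.mpr hne
  by_cases hV : IsPreconnected (Kᶜ)
  · refine hX.indec K (closure Kᶜ) hK hne ⟨isClosed_closure.isCompact, ?_⟩ ?_ ?_
    · exact IsConnected.closure (show IsConnected (Kᶜ) from ⟨hVne, hV⟩)
    · rw [closure_compl]
      obtain ⟨x, hx⟩ := hint
      intro h
      have : x ∈ (interior K)ᶜ := by rw [h]; trivial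
      exact this hx
    · apply eq_univ_of_forall
      intro x
      by_cases hx : x ∈ K
      · exact Or.inl hx
      · exact Or.inr (subset_closure hx)
  · unfold IsPreconnected at hV
    push Not at hV
    obtain ⟨P, Q, hP, hQ, hsub, hPne, hQne, hemp⟩ := hV
    have hPo : IsOpen (Kᶜ ∩ P) := hKcl.isOpen_compl.inter hP
    have hQo : IsOpen (Kᶜ ∩ Q) := hKcl.isOpen_compl.inter hQ
    have hd : Disjoint (Kᶜ ∩ P) (Kᶜ ∩ Q) := by
      rw [disjoint_left]
      rintro x ⟨h1, h2⟩ ⟨_, h3⟩
      have : x ∈ Kᶜ ∩ (P ∩ Q) := ⟨h1, h2, h3⟩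
      rw [hemp] at this
      exact this
    have hKP : Disjoint K (Kᶜ ∩ P) := by
      rw [disjoint_left]; rintro x h1 ⟨h2, _⟩; exact h2 h1
    have hKQ : Disjoint K (Kᶜ ∩ Q) := by
      rw [disjoint_left]; rintro x h1 ⟨h2, _⟩; exact h2 h1
    have hcov : K ∪ (Kᶜ ∩ P) ∪ (Kᶜ ∩ Q) = univ := by
      apply eq_univ_of_forall
      intro x
      by_cases hx : x ∈ K
      · exact Or.inl (Or.inl hx)
      · rcases hsub hx with h | h
        · exact Or.inl (Or.inr ⟨hx, h⟩)
        · exact Or.inr ⟨hx, h⟩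
    have hcov' : K ∪ (Kᶜ ∩ Q) ∪ (Kᶜ ∩ P) = univ := by
      rw [union_assoc, union_comm (Kᶜ ∩ Q), ← union_assoc]; exact hcov
    have c1 := connected_union K _ _ hK.2 hPo hQo hd hKQ hcov
    have c2 := connected_union K _ _ hK.2 hQo hPo hd.symm hKP hcov'
    have e1 : K ∪ (Kᶜ ∩ P) = (Kᶜ ∩ Q)ᶜ := by
      ext x
      constructor
      · rintro (h | h) hq
        · exact disjoint_left.mp hKQ h hq
        · exact disjoint_left.mp hd h hq
      · intro h
        have : x ∈ K ∪ (Kᶜ ∩ P) ∪ (Kᶜ ∩ Q) := by rw [hcov]; trivial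
        exact this.resolve_right h
    have e2 : K ∪ (Kᶜ ∩ Q) = (Kᶜ ∩ P)ᶜ := by
      ext x
      constructor
      · rintro (h | h) hq
        · exact disjoint_left.mp hKP h hq
        · exact disjoint_left.mp hd hq h
      · intro h
        have : x ∈ K ∪ (Kᶜ ∩ Q) ∪ (Kᶜ ∩ P) := by rw [hcov']; trivial
        exact this.resolve_right h
    have k1 : IsClosed (K ∪ (Kᶜ ∩ P)) := by rw [e1]; exact hQo.isClosed_compl
    have k2 : IsClosed (K ∪ (Kᶜ ∩ Q)) := by rw [e2]; exact hPo.isClosed_compl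
    refine hX.indec _ _ ⟨k1.isCompact, c1⟩ ?_ ⟨k2.isCompact, c2⟩ ?_ ?_
    · rw [e1]
      obtain ⟨x, hx⟩ := hQne
      intro h
      have : x ∈ (Kᶜ ∩ Q)ᶜ := by rw [h]; trivial
      exact this hx
    · rw [e2]
      obtain ⟨x, hx⟩ := hPne
      intro h
      have : x ∈ (Kᶜ ∩ P)ᶜ := by rw [h]; trivial
      exact this hx
    · rw [union_union_union_comm, union_self]
      rw [← hcov]
      rw [union_assoc]

/-! ### The counterexample -/

theorem not_idempotent {X : Type u} {Y : Type v} [TopologicalSpace X] [TopologicalSpace Y]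
    (hX : IsIndecomposableContinuum X) (hY : IsIndecomposableContinuum Y)
    [Nontrivial X] [Nontrivial Y] :
    ∃ A : Set (X × Y), IsOpen A ∧ T (T A) = univ ∧ T A ≠ univ := by
  have := hX.compact
  have := hX.t2
  have := hX.connected
  have := hY.compact
  have := hY.t2
  have := hY.connected
  obtain ⟨a, b, hab⟩ := exists_pair_ne X
  obtain ⟨y0, _, _⟩ := exists_pair_ne Y
  obtain ⟨U, haU, hUo, V, hbV, _, hUV⟩ := exists_open_nhds_disjoint_closure hab
  set C := closure U with hC
  have haC : a ∈ interior C := interior_mono subset_closure (by rwa [hUo.interior_eq])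
  have hCne : C ≠ univ := by
    intro h
    have : b ∈ C := by rw [h]; trivial
    exact disjoint_left.mp hUV this (subset_closure hbV)
  set W : Set (X × Y) := (C ×ˢ univ) ∪ (univ ×ˢ {y0}) with hW
  have hWcl : IsClosed W :=
    (isClosed_closure.prod isClosed_univ).union (isClosed_univ.prod isClosed_singleton)
  have hHor : IsPreconnected ((univ : Set X) ×ˢ ({y0} : Set Y)) :=
    isPreconnected_univ.prod isPreconnected_singleton
  have hWconn : IsConnected W := by
    refine ⟨⟨(a, y0), Or.inr ⟨trivial, rfl⟩⟩, ?_⟩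
    apply isPreconnected_of_forall (a, y0)
    rintro ⟨x, y⟩ hxy
    rcases hxy with h | h
    · refine ⟨(({x} : Set X) ×ˢ (univ : Set Y)) ∪ (univ ×ˢ {y0}), ?_, Or.inr ⟨trivial, rfl⟩,
        Or.inl ⟨rfl, trivial⟩, ?_⟩
      · rintro ⟨x', y'⟩ h'
        rcases h' with h' | h'
        · left
          have hx' : x' = x := h'.1
          exact ⟨by rw [hx']; exact h.1, trivial⟩
        · exact Or.inr h'
      · exact IsPreconnected.union (x, y0) ⟨rfl, trivial⟩ ⟨trivial, rfl⟩
          (isPreconnected_singleton.prod isPreconnected_univ) hHor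
    · exact ⟨univ ×ˢ {y0}, subset_union_right, ⟨trivial, rfl⟩, h, hHor⟩
  have hWsub : IsSubcontinuum W := ⟨hWcl.isCompact, hWconn⟩
  -- `Y` has no isolated point
  have hiso : ∀ Q : Set Y, IsOpen Q → Q.Nonempty → ∃ y ∈ Q, y ≠ y0 := by
    intro Q hQ hQne
    by_contra hcon
    push Not at hcon
    have hQ' : Q = {y0} := by
      obtain ⟨y, hy⟩ := hQne
      ext z
      constructor
      · intro hz; exact hcon z hz
      · intro hz
        rw [mem_singleton_iff] at hz
        rw [hz, ← hcon y hy]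
        exact hy
    have hclopen : IsClopen ({y0} : Set Y) := ⟨isClosed_singleton, by rw [← hQ']; exact hQ⟩
    have huniv := hclopen.eq_univ (singleton_nonempty y0)
    obtain ⟨c, d, hcd⟩ := exists_pair_ne Y
    have hc : c ∈ ({y0} : Set Y) := by rw [huniv]; trivial
    have hd : d ∈ ({y0} : Set Y) := by rw [huniv]; trivial
    exact hcd (by rw [mem_singleton_iff.mp hc, mem_singleton_iff.mp hd])
  have hintW : interior W ⊆ interior C ×ˢ univ := by
    rintro ⟨x, y⟩ hxy
    rw [mem_interior_iff_mem_nhds, mem_nhds_prod_iff'] at hxy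
    obtain ⟨P, Q, hP, hxP, hQ, hyQ, hPQ⟩ := hxy
    refine ⟨?_, trivial⟩
    refine mem_interior.mpr ⟨P, ?_, hP, hxP⟩
    intro x' hx'
    obtain ⟨y', hy', hne⟩ := hiso Q hQ ⟨y, hyQ⟩
    rcases hPQ (show (x', y') ∈ P ×ˢ Q from ⟨hx', hy'⟩) with h | h
    · exact h.1
    · exact absurd h.2 hne
  have hTA : T (Wᶜ) = (interior C ×ˢ (univ : Set Y))ᶜ := by
    ext p
    constructor
    · rintro ⟨_, hp⟩ hp'
      apply hp
      refine ⟨W, hWsub, ?_, inter_compl_self W⟩
      refine mem_interior.mpr ⟨interior C ×ˢ univ, ?_, isOpen_interior.prod isOpen_univ, hp'⟩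
      rintro ⟨x, y⟩ h
      exact Or.inl ⟨interior_subset h.1, trivial⟩
    · intro hp
      refine ⟨trivial, ?_⟩
      rintro ⟨W', _, hint, hdis⟩
      have hsub : W' ⊆ W := by
        intro q hq
        by_contra hqW
        have : q ∈ W' ∩ Wᶜ := ⟨hq, hqW⟩
        rw [hdis] at this
        exact this
      exact hp (hintW (interior_mono hsub hint))
  refine ⟨Wᶜ, hWcl.isOpen_compl, ?_, ?_⟩
  · apply eq_univ_of_forall
    intro p
    refine ⟨trivial, ?_⟩
    rintro ⟨K, hK, hpK, hdis⟩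
    rw [hTA] at hdis
    have hsub : K ⊆ interior C ×ˢ univ := by
      intro q hq
      by_contra hqW
      have : q ∈ K ∩ (interior C ×ˢ (univ : Set Y))ᶜ := ⟨hq, hqW⟩
      rw [hdis] at this
      exact this
    have hK' : IsSubcontinuum (Prod.fst '' K) :=
      ⟨hK.1.image continuous_fst, hK.2.image _ continuous_fst.continuousOn⟩
    have hK'ne : Prod.fst '' K ≠ univ := by
      intro h
      apply hCne
      apply eq_univ_of_forall
      intro x
      have : x ∈ Prod.fst '' K := by rw [h]; trivial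
      obtain ⟨q, hq, rfl⟩ := this
      exact interior_subset (hsub hq).1
    have hemp := interior_empty hX _ hK' hK'ne
    have hopen : IsOpen (Prod.fst '' interior K) := isOpenMap_fst _ isOpen_interior
    have : p.1 ∈ interior (Prod.fst '' K) :=
      mem_interior.mpr ⟨_, image_mono interior_subset, hopen, ⟨p, hpK, rfl⟩⟩
    rw [hemp] at this
    exact this
  · rw [hTA]
    intro h
    have : ((a, y0) : X × Y) ∈ (interior C ×ˢ (univ : Set Y))ᶜ := by rw [h]; trivial
    exact this ⟨haC, trivial⟩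

/-! ### An indecomposable continuum: the inverse limit of the tent map -/

/-- the tent map -/
noncomputable def f (t : ℝ) : ℝ := 1 - |1 - 2 * t|

lemma f_cont : Continuous f := by unfold f; fun_prop

lemma f_mem {t : ℝ} (h : t ∈ Icc (0 : ℝ) 1) : f t ∈ Icc (0 : ℝ) 1 := by
  unfold f
  have h1 : |1 - 2 * t| ≤ 1 := abs_le.mpr ⟨by linarith [h.2], by linarith [h.1]⟩
  exact ⟨by linarith, by linarith [abs_nonneg (1 - 2 * t)]⟩

lemma f_half {s : ℝ} (h : s ∈ Icc (0 : ℝ) 1) : f (s / 2) = s := by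
  unfold f
  rw [abs_of_nonneg (by linarith [h.2])]
  ring

lemma f_half' {s : ℝ} (h : s ∈ Icc (0 : ℝ) 1) : f (1 - s / 2) = s := by
  unfold f
  rw [abs_of_nonpos (by linarith [h.2])]
  ring

lemma f_iter_mem (n : ℕ) {t : ℝ} (h : t ∈ Icc (0 : ℝ) 1) : f^[n] t ∈ Icc (0 : ℝ) 1 := by
  induction n generalizing t with
  | zero => exact h
  | succ n ih => rw [Function.iterate_succ_apply]; exact ih (f_mem h)

/-- the inverse limit of the tent map -/
def Ks : Set (ℕ → ℝ) := {x | (∀ n, x n ∈ Icc (0 : ℝ) 1) ∧ ∀ n, f (x (n + 1)) = x n}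

/-- partial inverse limits -/
def Cn (n : ℕ) : Set (ℕ → ℝ) := {x | (∀ n, x n ∈ Icc (0 : ℝ) 1) ∧ ∀ k < n, f (x (k + 1)) = x k}

noncomputable def Ψ (n : ℕ) (z : ℕ → ℝ) : ℕ → ℝ := fun k => if k < n then f^[n - k] (z n) else z k

lemma Cn_eq (n : ℕ) : Cn n = Ψ n '' (Set.pi univ (fun _ => Icc (0 : ℝ) 1)) := by
  ext x
  constructor
  · rintro ⟨h1, h2⟩
    refine ⟨x, fun i _ => h1 i, ?_⟩
    have key : ∀ j k, k + j = n → f^[j] (x n) = x k := by
      intro j
      induction j with
      | zero => intro k hk; simp at hk; rw [hk]; rfl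
      | succ j ih =>
        intro k hk
        rw [Function.iterate_succ_apply', ih (k + 1) (by omega)]
        exact h2 k (by omega)
    funext k
    unfold Ψ
    split_ifs with hk
    · exact key (n - k) k (by omega)
    · rfl
  · rintro ⟨z, hz, rfl⟩
    have hz' : ∀ i, z i ∈ Icc (0 : ℝ) 1 := fun i => hz i trivial
    refine ⟨?_, ?_⟩
    · intro k
      unfold Ψ
      split_ifs
      · exact f_iter_mem _ (hz' n)
      · exact hz' k
    · intro k hk
      unfold Ψ
      rw [if_pos hk]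
      by_cases h : k + 1 < n
      · rw [if_pos h, ← Function.iterate_succ_apply' f]
        congr 1
        omega
      · have hkn : k + 1 = n := by omega
        rw [if_neg h, hkn]
        have : n - k = 1 := by omega
        rw [this]
        rfl

lemma Ψ_cont (n : ℕ) : Continuous (Ψ n) := by
  apply continuous_pi
  intro k
  unfold Ψ
  split_ifs
  · exact (f_cont.iterate _).comp (continuous_apply n)
  · exact continuous_apply k

lemma Cn_compact (n : ℕ) : IsCompact (Cn n) := by
  rw [Cn_eq]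
  exact (isCompact_univ_pi (fun _ => isCompact_Icc)).image (Ψ_cont n)

lemma Cn_preconnected (n : ℕ) : IsPreconnected (Cn n) := by
  rw [Cn_eq]
  exact (isPreconnected_univ_pi (fun _ => isPreconnected_Icc)).image _ (Ψ_cont n).continuousOn

lemma Ks_eq : Ks = ⋂ n, Cn n := by
  ext x
  simp only [mem_iInter]
  constructor
  · rintro ⟨h1, h2⟩ n
    exact ⟨h1, fun k _ => h2 k⟩
  · intro h
    exact ⟨(h 0).1, fun k => (h (k + 1)).2 k (Nat.lt_succ_self k)⟩

lemma Cn_anti : Antitone Cn := by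
  intro m n hmn x hx
  exact ⟨hx.1, fun k hk => hx.2 k (by omega)⟩

lemma Ks_compact : IsCompact Ks := by
  rw [Ks_eq]
  exact (Cn_compact 0).of_isClosed_subset (isClosed_iInter fun n => (Cn_compact n).isClosed)
    (iInter_subset _ 0)

lemma Ks_preconnected : IsPreconnected Ks := by
  have hcl : IsClosed Ks := Ks_compact.isClosed
  rw [isPreconnected_closed_iff]
  intro t t' ht ht' hsub hne hne'
  by_contra hcon
  rw [not_nonempty_iff_eq_empty] at hcon
  have hd : Disjoint (Ks ∩ t) (Ks ∩ t') := by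
    rw [disjoint_left]
    rintro x ⟨h1, h2⟩ ⟨_, h3⟩
    have : x ∈ Ks ∩ (t ∩ t') := ⟨h1, h2, h3⟩
    rw [hcon] at this
    exact this
  obtain ⟨U, V, hU, hV, hKU, hKV, hUV⟩ :=
    SeparatedNhds.of_isCompact_isCompact (Ks_compact.inter_right ht)
      (Ks_compact.inter_right ht') hd
  have hopen : IsOpen (U ∪ V) := hU.union hV
  have hnhds : ∀ x ∈ ⋂ n, Cn n, U ∪ V ∈ 𝓝 x := by
    intro x hx
    rw [← Ks_eq] at hx
    apply hopen.mem_nhds
    rcases hsub hx with h | h
    · exact Or.inl (hKU ⟨hx, h⟩)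
    · exact Or.inr (hKV ⟨hx, h⟩)
  obtain ⟨n, hn⟩ := exists_subset_nhds_of_isCompact' (V := Cn)
    (directed_of_isDirected_le Cn_anti) Cn_compact (fun n => (Cn_compact n).isClosed) hnhds
  have hsubn : Ks ⊆ Cn n := by rw [Ks_eq]; exact iInter_subset _ n
  obtain ⟨x, hx⟩ := hne
  obtain ⟨x', hx'⟩ := hne'
  have h1 : (Cn n ∩ U).Nonempty := ⟨x, hsubn hx.1, hKU hx⟩
  have h2 : (Cn n ∩ V).Nonempty := ⟨x', hsubn hx'.1, hKV hx'⟩
  obtain ⟨y, _, hyU, hyV⟩ := Cn_preconnected n U V hU hV hn h1 h2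
  exact disjoint_left.mp hUV hyU hyV

/-- the Knaster (buckethandle) continuum, as a type -/
abbrev KsT : Type := Ks

lemma zero_mem : (fun _ => (0 : ℝ)) ∈ Ks := by
  refine ⟨fun _ => ⟨le_rfl, zero_le_one⟩, fun _ => ?_⟩
  simp [f]

lemma twoThirds_mem : (fun _ => (2 / 3 : ℝ)) ∈ Ks := by
  refine ⟨fun _ => ⟨by norm_num, by norm_num⟩, fun _ => ?_⟩
  unfold f
  rw [abs_of_neg (by norm_num)]
  norm_num

instance : Nontrivial KsT := by
  refine ⟨⟨⟨_, zero_mem⟩, ⟨_, twoThirds_mem⟩, ?_⟩⟩
  intro h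
  have h1 := congrArg (fun x : KsT => x.1 0) h
  norm_num at h1

instance : CompactSpace KsT := isCompact_iff_compactSpace.mp Ks_compact

instance : ConnectedSpace KsT :=
  isConnected_iff_connectedSpace.mp ⟨⟨_, zero_mem⟩, Ks_preconnected⟩

/-- every value in `[0, 1]` is attained in every coordinate -/
lemma exists_coord (m : ℕ) (t : ℝ) (ht : t ∈ Icc (0 : ℝ) 1) : ∃ x : KsT, x.1 m = t := by
  let z : ℕ → ℝ := fun k => if k < m then f^[m - k] t else t / 2 ^ (k - m)
  have h2 : ∀ j : ℕ, t / 2 ^ j ∈ Icc (0 : ℝ) 1 := by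
    intro j
    refine ⟨div_nonneg ht.1 (by positivity), ?_⟩
    rw [div_le_one (by positivity)]
    exact ht.2.trans (one_le_pow₀ (by norm_num))
  refine ⟨⟨z, ?_, ?_⟩, ?_⟩
  · intro k
    simp only [z]
    split_ifs
    · exact f_iter_mem _ ht
    · exact h2 _
  · intro k
    simp only [z]
    by_cases hk : k < m
    · rw [if_pos hk]
      by_cases h : k + 1 < m
      · rw [if_pos h, ← Function.iterate_succ_apply' f]
        congr 1
        omega
      · have hkn : k + 1 = m := by omega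
        have e1 : m - k = 1 := by omega
        rw [if_neg h, hkn, e1]
        simp
    · rw [if_neg hk, if_neg (by omega)]
      have e1 : k + 1 - m = (k - m) + 1 := by omega
      rw [e1, pow_succ, ← div_div]
      exact f_half (h2 _)
  · simp [z]

lemma full_of_frequently (K : Set KsT) (hK : IsClosed K)
    (h : ∀ n, ∃ m ≥ n, ∀ t ∈ Icc (0 : ℝ) 1, ∃ x ∈ K, x.1 m = t) : K = univ := by
  have hcoord : ∀ (x y : KsT) (m k : ℕ), x.1 m = y.1 m → k ≤ m → x.1 k = y.1 k := by
    intro x y m k hxy hk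
    obtain ⟨j, rfl⟩ := Nat.exists_eq_add_of_le hk
    induction j with
    | zero => exact hxy
    | succ j ih =>
      apply ih _ (by omega)
      rw [← x.2.2 (k + j), ← y.2.2 (k + j)]
      congr 1
  apply eq_univ_of_forall
  intro x
  have hy : ∀ n, ∃ y ∈ K, ∀ k ≤ n, y.1 k = x.1 k := by
    intro n
    obtain ⟨m, hm, hfull⟩ := h n
    obtain ⟨y, hyK, hy⟩ := hfull (x.1 m) (x.2.1 m)
    exact ⟨y, hyK, fun k hk => hcoord y x m k hy (by omega)⟩
  choose y hyK hyx using hy
  refine hK.mem_of_tendsto (f := y) (b := Filter.atTop) ?_ (Filter.Eventually.of_forall hyK)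
  rw [tendsto_subtype_rng, tendsto_pi_nhds]
  intro k
  apply tendsto_const_nhds.congr'
  filter_upwards [Filter.eventually_ge_atTop k] with n hn
  exact (hyx n k hn).symm

lemma indec_aux (K : Set KsT) (hK : IsSubcontinuum K) (m : ℕ) (s t : ℝ)
    (hst : (s = 0 ∧ t = 1 / 2) ∨ (s = 1 / 2 ∧ t = 1) ∨ (s = 0 ∧ t = 1))
    (hs : ∃ x ∈ K, x.1 (m + 1) = s) (ht : ∃ x ∈ K, x.1 (m + 1) = t) :
    ∀ r ∈ Icc (0 : ℝ) 1, ∃ x ∈ K, x.1 m = r := by
  have hpre : IsPreconnected ((fun x : KsT => x.1 (m + 1)) '' K) :=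
    hK.2.isPreconnected.image _ ((continuous_apply (m + 1)).comp continuous_subtype_val).continuousOn
  have hicc : Icc s t ⊆ (fun x : KsT => x.1 (m + 1)) '' K := hpre.Icc_subset hs ht
  intro r hr
  rcases hst with ⟨rfl, rfl⟩ | ⟨rfl, rfl⟩ | ⟨rfl, rfl⟩
  · obtain ⟨x, hx, hxr⟩ := hicc (show r / 2 ∈ Icc (0 : ℝ) (1 / 2) from
      ⟨by linarith [hr.1], by linarith [hr.2]⟩)
    exact ⟨x, hx, by rw [← x.2.2 m]; rw [show x.1 (m + 1) = r / 2 from hxr]; exact f_half hr⟩
  · obtain ⟨x, hx, hxr⟩ := hicc (show 1 - r / 2 ∈ Icc (1 / 2 : ℝ) 1 from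
      ⟨by linarith [hr.2], by linarith [hr.1]⟩)
    exact ⟨x, hx, by rw [← x.2.2 m]; rw [show x.1 (m + 1) = 1 - r / 2 from hxr]; exact f_half' hr⟩
  · obtain ⟨x, hx, hxr⟩ := hicc (show r / 2 ∈ Icc (0 : ℝ) 1 from
      ⟨by linarith [hr.1], by linarith [hr.2]⟩)
    exact ⟨x, hx, by rw [← x.2.2 m]; rw [show x.1 (m + 1) = r / 2 from hxr]; exact f_half hr⟩

theorem Ks_indecomposable : IsIndecomposableContinuum KsT where
  compact := inferInstance
  t2 := inferInstance
  connected := inferInstance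
  indec := by
    intro K L hK hKne hL hLne hcov
    have hKn : ∃ n, ∀ m ≥ n, ¬ ∀ t ∈ Icc (0 : ℝ) 1, ∃ x ∈ K, x.1 m = t := by
      by_contra hcon
      push Not at hcon
      exact hKne (full_of_frequently K hK.1.isClosed hcon)
    have hLn : ∃ n, ∀ m ≥ n, ¬ ∀ t ∈ Icc (0 : ℝ) 1, ∃ x ∈ L, x.1 m = t := by
      by_contra hcon
      push Not at hcon
      exact hLne (full_of_frequently L hL.1.isClosed hcon)
    obtain ⟨n1, h1⟩ := hKn
    obtain ⟨n2, h2⟩ := hLn
    set m := max n1 n2 with hm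
    have hK' := h1 m (le_max_left _ _)
    have hL' := h2 m (le_max_right _ _)
    have key : ∀ t ∈ Icc (0 : ℝ) 1, (∃ x ∈ K, x.1 (m + 1) = t) ∨ (∃ x ∈ L, x.1 (m + 1) = t) := by
      intro t ht
      obtain ⟨x, hx⟩ := exists_coord (m + 1) t ht
      have hxu : x ∈ K ∪ L := by rw [hcov]; trivial
      rcases hxu with h | h
      · exact Or.inl ⟨x, h, hx⟩
      · exact Or.inr ⟨x, h, hx⟩
    rcases key 0 ⟨le_rfl, zero_le_one⟩ with a | a <;>
    rcases key (1 / 2) ⟨by norm_num, by norm_num⟩ with b | b <;>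
    rcases key 1 ⟨zero_le_one, le_rfl⟩ with c | c
    · exact hK' (indec_aux K hK m 0 (1 / 2) (Or.inl ⟨rfl, rfl⟩) a b)
    · exact hK' (indec_aux K hK m 0 (1 / 2) (Or.inl ⟨rfl, rfl⟩) a b)
    · exact hK' (indec_aux K hK m 0 1 (Or.inr (Or.inr ⟨rfl, rfl⟩)) a c)
    · exact hL' (indec_aux L hL m (1 / 2) 1 (Or.inr (Or.inl ⟨rfl, rfl⟩)) b c)
    · exact hK' (indec_aux K hK m (1 / 2) 1 (Or.inr (Or.inl ⟨rfl, rfl⟩)) b c)
    · exact hL' (indec_aux L hL m 0 1 (Or.inr (Or.inr ⟨rfl, rfl⟩)) a c)
    · exact hL' (indec_aux L hL m 0 (1 / 2) (Or.inl ⟨rfl, rfl⟩) a b)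
    · exact hL' (indec_aux L hL m 0 (1 / 2) (Or.inl ⟨rfl, rfl⟩) a b)

/-- **Negative answer to Q1**, in a strong form.

(1) For all non-degenerate indecomposable continua `X`, `Y` there is an open set `A ⊆ X × Y` with
`T (T A) ≠ T A` (in fact `T (T A)` is the whole space and `T A` is not). So `T` is never
idempotent on the product of two non-degenerate indecomposable continua.

(2) Non-degenerate indecomposable continua exist, hence the negated form of Q1 holds. -/
theorem result :
    (∀ (X : Type u) (Y : Type v) [TopologicalSpace X] [TopologicalSpace Y],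
      IsIndecomposableContinuum X → IsIndecomposableContinuum Y → Nontrivial X → Nontrivial Y →
      ∃ A : Set (X × Y), IsOpen A ∧ T (T A) = Set.univ ∧ T A ≠ Set.univ) ∧
    (∃ (X : Type) (_ : TopologicalSpace X) (Y : Type) (_ : TopologicalSpace Y),
      IsIndecomposableContinuum X ∧ IsIndecomposableContinuum Y ∧ Nontrivial X ∧ Nontrivial Y ∧
      ∃ A : Set (X × Y), T (T A) ≠ T A) := by
  constructor
  · intro X Y _ _ hX hY hX' hY'
    exact not_idempotent hX hY
  · refine ⟨KsT, inferInstance, KsT, inferInstance, Ks_indecomposable, Ks_indecomposable,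
      inferInstance, inferInstance, ?_⟩
    obtain ⟨A, _, h1, h2⟩ := not_idempotent Ks_indecomposable Ks_indecomposable
    exact ⟨A, by rw [h1]; exact h2.symm⟩

end Pool.Agent.Results.MP_fe892a_gt.NotIdempotent
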